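import Pool.Agent.Q269.GT.Stm2
import Pool.Agent.Q65.GT.Fin

/-!
# Project GT, job BAS: base change of the family and of its bad primes
-/

set_option autoImplicit false
set_option linter.all false

open scoped Classical
open Polynomial Module

namespace Pool.Agent.Q237.GT

open Pool.Agent.Q269.GT
open Pool.Agent.Y164.HG (F2 Symp om Dat Triv V Geo Tau QQ Del bpF)

theorem exists_fac {k E : Type} [Field k] [Field E] [Algebra k E] {p : k[X]} (hp : p ≠ 0)
    {Q' : E[X]} (hQ : Irreducible Q') (hd : Q' ∣ p.map (algebraMap k E)) :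
    ∃ Q : k[X], Q.Monic ∧ Irreducible Q ∧ Q ∣ p ∧ Q' ∣ Q.map (algebraMap k E) := by
  obtain ⟨s, hs, hass⟩ := UniqueFactorizationMonoid.exists_prime_factors p hp
  have h1 : Q' ∣ s.prod.map (algebraMap k E) :=
    hd.trans (Polynomial.map_dvd _ hass.symm.dvd)
  rw [Polynomial.map_multiset_prod] at h1
  obtain ⟨b, hb, hbd⟩ := hQ.prime.exists_mem_multiset_map_dvd h1
  have hbp := hs b hb
  have hb0 : b.leadingCoeff ≠ 0 := leadingCoeff_ne_zero.2 hbp.ne_zero
  have hassb : Associated b (b * C b.leadingCoeff⁻¹) :=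
    ⟨(isUnit_C.2 (IsUnit.mk0 _ (inv_ne_zero hb0))).unit, rfl⟩
  refine ⟨b * C b.leadingCoeff⁻¹, monic_mul_leadingCoeff_inv hbp.ne_zero,
    hassb.irreducible hbp.irreducible, ?_, ?_⟩
  · exact (hassb.symm.dvd).trans ((Multiset.dvd_prod hb).trans hass.dvd)
  · exact hbd.trans (Polynomial.map_dvd _ hassb.dvd)

theorem t_BAS : S_BAS := by
  intro k E _ _ _ _ _ _ _ n N a H hcop c hc
  set f : k →+* E := algebraMap k E with hf
  have hfi : Function.Injective f := f.injective
  set a' : Fin n → E[X] := fun i => C c * (a i).map f with ha'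
  have hsub : ∀ i j, a' i - a' j = C c * (a i - a j).map f := by
    intro i j
    show C c * (a i).map f - C c * (a j).map f = _
    rw [Polynomial.map_sub, mul_sub]
  set M : ℕ := ((Finset.univ : Finset (Fin n × Fin n)).filter (fun x => x.1 < x.2)).card with hM
  have hDel : Del a' = C (c ^ M) * (Del a).map f := by
    unfold Del
    rw [Polynomial.map_prod, C_pow, hM, ← Finset.prod_const, ← Finset.prod_mul_distrib]
    exact Finset.prod_congr rfl fun x _ => hsub _ _
  have hu : IsUnit (C (c ^ M) : E[X]) := isUnit_C.2 (IsUnit.mk0 _ (pow_ne_zero _ hc))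
  have hdel : Del a ≠ 0 := H.del_ne
  have hdvd : ∀ Q' : E[X], Q' ∣ Del a' ↔ Q' ∣ (Del a).map f := by
    intro Q'
    rw [hDel]
    exact hu.dvd_mul_left
  have hgeo : Geo a' N := by
    refine ⟨?_, ?_, H.hn, H.hn3, H.hN, ?_, ?_⟩
    · rw [← Algebra.ringChar_eq k E]
      exact H.hk
    · have h1 := H.hm.map f
      rw [map_neg, map_one] at h1
      exact h1
    · intro i j hij
      rw [hsub, natDegree_C_mul hc, natDegree_map]
      exact H.hdeg i j hij
    · have h1 : (Del a).Separable := PerfectField.separable_iff_squarefree.2 H.hsq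
      have h2 : ((Del a).map f).Separable := h1.map
      have h3 : Squarefree ((Del a).map f) := h2.squarefree
      intro x hx
      exact h3 x ((hdvd (x * x)).1 hx)
  refine ⟨hgeo, ?_⟩
  have hmem : ∀ t : Tau a, (QQ a t).map f ∈ bpF a' := by
    intro t
    obtain ⟨h1, h2, h3⟩ := H.mem.1 t.2
    rw [hgeo.mem]
    exact ⟨h1.map f, Pool.Agent.Q65.GT.t_IRR k E (QQ a t) h2 (hcop _ h2 h3),
      (hdvd _).2 (Polynomial.map_dvd f h3)⟩
  let g : Tau a → Tau a' := fun t => ⟨(QQ a t).map f, hmem t⟩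
  have hg : Function.Bijective g := by
    constructor
    · intro s t hst
      have h1 : (QQ a s).map f = (QQ a t).map f := congrArg Subtype.val hst
      exact Subtype.ext (Polynomial.map_injective f hfi h1)
    · intro s
      obtain ⟨h1, h2, h3⟩ := hgeo.mem.1 s.2
      obtain ⟨Q, q1, q2, q3, q4⟩ := exists_fac hdel h2 ((hdvd _).1 h3)
      have hQ : Q ∈ bpF a := H.mem.2 ⟨q1, q2, q3⟩
      refine ⟨⟨Q, hQ⟩, Subtype.ext ?_⟩
      have h4 : Irreducible (Q.map f) := Pool.Agent.Q65.GT.t_IRR k E Q q2 (hcop _ q2 q3)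
      have h5 : Associated s.1 (Q.map f) := h2.associated_of_dvd h4 q4
      exact (eq_of_monic_of_associated h1 (q1.map f) h5).symm
  refine ⟨(Equiv.ofBijective g hg).symm, fun s => ?_⟩
  have h1 : g ((Equiv.ofBijective g hg).symm s) = s := (Equiv.ofBijective g hg).apply_symm_apply s
  have h2 : (QQ a ((Equiv.ofBijective g hg).symm s)).map f = s.1 := congrArg Subtype.val h1
  exact h2.symm

end Pool.Agent.Q237.GT
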